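import Pool.Agent.NL.StmtsB

/-! NL, module BSR: the elements of the base space. -/

set_option autoImplicit false

namespace Pool.Agent.NL.H64

open Pool.Agent.NL

theorem bo_add (n u : ℕ) (c d : ℕ → ℝ) (q : ℕ → ℝ →₀ ℝ) :
    bo n u (fun i => c i + d i) q = bo n u c q + bo n u d q := by
  unfold bo
  rw [← Finset.sum_add_distrib]
  exact Finset.sum_congr rfl fun i _ => add_smul _ _ _

theorem bo_smul (n u : ℕ) (a : ℝ) (c : ℕ → ℝ) (q : ℕ → ℝ →₀ ℝ) :
    bo n u (fun i => a * c i) q = a • bo n u c q := by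
  unfold bo
  rw [Finset.smul_sum]
  exact Finset.sum_congr rfl fun i _ => mul_smul _ _ _

theorem bsr : BsrStmt := by
  intro X _ _ G Ψ n u q Q b hb
  unfold NE.Bs at hb
  rw [Submodule.span_union, Submodule.mem_sup] at hb
  obtain ⟨v, hv, w, hw, rfl⟩ := hb
  have h1 : ∃ c : ℕ → ℝ, v = V G (bo n u c q) := by
    induction hv using Submodule.span_induction with
    | mem x hx =>
      obtain ⟨i, ⟨hi, hiu⟩, rfl⟩ := hx
      refine ⟨fun j => if j = i then 1 else 0, ?_⟩
      have h2 : bo n u (fun j => if j = i then 1 else 0) q = q i := by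
        unfold bo
        rw [Finset.sum_eq_single i]
        · simp only [if_true, one_smul]
        · intro j _ hj
          simp only [if_neg hj, zero_smul]
        · intro h
          exact absurd (Finset.mem_erase.2 ⟨hiu, Finset.mem_range.2 hi⟩) h
      rw [h2]
    | zero =>
      refine ⟨fun _ => 0, ?_⟩
      have h2 : bo n u (fun _ => (0 : ℝ)) q = 0 := by
        unfold bo
        exact Finset.sum_eq_zero fun i _ => zero_smul _ _
      rw [h2, map_zero]
    | add x y _ _ hx hy =>
      obtain ⟨c, rfl⟩ := hx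
      obtain ⟨d, rfl⟩ := hy
      exact ⟨fun i => c i + d i, by rw [bo_add, map_add]⟩
    | smul a x _ hx =>
      obtain ⟨c, rfl⟩ := hx
      exact ⟨fun i => a * c i, by rw [bo_smul, map_smul]⟩
  obtain ⟨c, rfl⟩ := h1
  have h2 : Submodule.span ℝ (Ψ '' Q) = (Submodule.span ℝ Q).map Ψ.toLinearMap := by
    rw [Submodule.map_span]
    rfl
  rw [h2] at hw
  obtain ⟨y, hy, rfl⟩ := hw
  refine ⟨c, -y, Submodule.neg_mem _ hy, ?_⟩
  rw [map_neg, sub_neg_eq_add]
  rfl

end Pool.Agent.NL.H64
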